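import Mathlib

/-! # Squeezing function tending to one at a weakly pseudoconvex point

`D = {|z|² + |w|⁴ < 1}`, `p = (1, 0)`. The automorphisms of `D` move the points
`(a, (1 - η) (1 - a²)^(1/4))` to `(0, 1 - η)`; near the strongly pseudoconvex point `(0, 1)` the domain
`D` is contained in `{|z|² < 4 Re (1 - w)}`, which is biholomorphic to the ball, and fills it up after
the dilation which moves `(0, 1 - η)` to a fixed point. -/

open Set Filter Topology Metric Asymptotics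
open scoped ContDiff ComplexConjugate

namespace Pool.Agent.Results.MP_63facb_an.ThullenPoint

abbrev E := EuclideanSpace ℂ (Fin 2)

def D : Set E := {x | ‖x 0‖ ^ 2 + ‖x 1‖ ^ 4 < 1}

lemma mem_D {x : E} : x ∈ D ↔ ‖x 0‖ ^ 2 + ‖x 1‖ ^ 4 < 1 := Iff.rfl

lemma normsq (x : E) : ‖x‖ ^ 2 = ‖x 0‖ ^ 2 + ‖x 1‖ ^ 2 := by
  rw [EuclideanSpace.norm_sq_eq, Fin.sum_univ_two]

/-- `ρ` is a `C^∞` defining function of `D` in the open set `U`. -/
structure IsDefining {n : ℕ} (D U : Set (EuclideanSpace ℂ (Fin n)))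
    (ρ : EuclideanSpace ℂ (Fin n) → ℝ) : Prop where
  isOpen : IsOpen U
  smooth : ContDiffOn ℝ ∞ ρ U
  eq : D ∩ U = {x | x ∈ U ∧ ρ x < 0}
  deriv_ne : ∀ x ∈ frontier D ∩ U, fderiv ℝ ρ x ≠ 0

/-- the second derivative of `ρ` at `x` in the direction `t` -/
noncomputable def secondDeriv {n : ℕ} (ρ : EuclideanSpace ℂ (Fin n) → ℝ)
    (x t : EuclideanSpace ℂ (Fin n)) : ℝ :=
  deriv (deriv fun s : ℝ => ρ (x + s • t)) 0

/-- the Levi form `∑ ∂²ρ/∂z_j∂z̄_k t_j t̄_k`, which is `(D²ρ(t, t) + D²ρ(it, it)) / 4` -/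
noncomputable def levi {n : ℕ} (ρ : EuclideanSpace ℂ (Fin n) → ℝ)
    (x t : EuclideanSpace ℂ (Fin n)) : ℝ :=
  (secondDeriv ρ x t + secondDeriv ρ x (Complex.I • t)) / 4

/-- `t` is a complex tangent vector of the level set of `ρ` through `x`: `∂ρ(x) t = 0` -/
def ComplexTangent {n : ℕ} (ρ : EuclideanSpace ℂ (Fin n) → ℝ)
    (x t : EuclideanSpace ℂ (Fin n)) : Prop :=
  fderiv ℝ ρ x t = 0 ∧ fderiv ℝ ρ x (Complex.I • t) = 0

/-- the boundary of `D` is `C^∞` and Levi-pseudoconvex near `p` -/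
def PseudoconvexNear {n : ℕ} (D : Set (EuclideanSpace ℂ (Fin n)))
    (p : EuclideanSpace ℂ (Fin n)) : Prop :=
  ∃ U ρ, p ∈ U ∧ IsDefining D U ρ ∧
    ∀ x ∈ frontier D ∩ U, ∀ t, ComplexTangent ρ x t → 0 ≤ levi ρ x t

/-- the boundary of `D` is strongly (Levi) pseudoconvex at `p` -/
def StronglyPseudoconvexAt {n : ℕ} (D : Set (EuclideanSpace ℂ (Fin n)))
    (p : EuclideanSpace ℂ (Fin n)) : Prop :=
  ∃ U ρ, p ∈ U ∧ IsDefining D U ρ ∧ ∀ t, t ≠ 0 → ComplexTangent ρ p t → 0 < levi ρ p t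

/-- The level set of `ρ` through `p` has D'Angelo type at most `T` at `p`: if the order of contact of
`γ` with its value `γ 0 = p` is at most `m` then the order of vanishing of `ρ ∘ γ` is at most `T m`, for
all germs of analytic discs `γ` at `p`. -/
def TypeAtMost {n : ℕ} (ρ : EuclideanSpace ℂ (Fin n) → ℝ) (p : EuclideanSpace ℂ (Fin n))
    (T : ℕ) : Prop :=
  ∀ γ : ℂ → EuclideanSpace ℂ (Fin n), AnalyticAt ℂ γ 0 → γ 0 = p → ∀ m : ℕ,
    ¬ ((fun ζ => γ ζ - p) =o[𝓝 0] fun ζ => ζ ^ m) →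
    ¬ ((fun ζ => ρ (γ ζ)) =O[𝓝 0] fun ζ => ζ ^ (T * m + 1))

/-- the boundary of `D` is `C^∞` near `p` and of finite D'Angelo type at `p` -/
def FiniteTypeAt {n : ℕ} (D : Set (EuclideanSpace ℂ (Fin n)))
    (p : EuclideanSpace ℂ (Fin n)) : Prop :=
  ∃ U ρ, p ∈ U ∧ IsDefining D U ρ ∧ ∃ T : ℕ, TypeAtMost ρ p T

/-- some holomorphic embedding `F : D → B(0, 1)` with `F z = 0` has `B(0, r) ⊆ F(D)` -/
def Fits {n : ℕ} (D : Set (EuclideanSpace ℂ (Fin n))) (z : EuclideanSpace ℂ (Fin n))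
    (r : ℝ) : Prop :=
  ∃ F : EuclideanSpace ℂ (Fin n) → EuclideanSpace ℂ (Fin n),
    DifferentiableOn ℂ F D ∧ InjOn F D ∧ F '' D ⊆ ball 0 1 ∧ F z = 0 ∧ ball 0 r ⊆ F '' D

/-- the squeezing function of `D ⊆ ℂⁿ` at `z` -/
noncomputable def squeezing {n : ℕ} (D : Set (EuclideanSpace ℂ (Fin n)))
    (z : EuclideanSpace ℂ (Fin n)) : ℝ :=
  sSup {r : ℝ | 0 < r ∧ Fits D z r}

/-- `D` is a bounded convex domain -/
def IsConvexDomain {n : ℕ} (D : Set (EuclideanSpace ℂ (Fin n))) : Prop :=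
  IsOpen D ∧ IsConnected D ∧ Bornology.IsBounded D ∧ Convex ℝ D

/-- the squeezing function tends to one along some sequence of points of `D` with limit `p` -/
def SqueezingTendsToOne {n : ℕ} (D : Set (EuclideanSpace ℂ (Fin n)))
    (p : EuclideanSpace ℂ (Fin n)) : Prop :=
  ∃ z : ℕ → EuclideanSpace ℂ (Fin n), (∀ ν, z ν ∈ D) ∧ Tendsto z atTop (𝓝 p) ∧
    Tendsto (fun ν => squeezing D (z ν)) atTop (𝓝 1)

noncomputable def rho (x : E) : ℝ := ‖x 0‖ ^ 2 + ‖x 1‖ ^ 4 - 1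

noncomputable def P (i : Fin 2) : E →L[ℝ] ℂ :=
  (EuclideanSpace.proj (𝕜 := ℂ) i : E →L[ℂ] ℂ).restrictScalars ℝ

lemma P_apply (i : Fin 2) (x : E) : P i x = x i := rfl

lemma smooth_rho : ContDiff ℝ ∞ rho := by
  have h : ∀ i : Fin 2, ContDiff ℝ ∞ (fun x : E => ‖x i‖ ^ 2) := fun i =>
    (contDiff_norm_sq ℝ).comp (P i).contDiff
  have e : rho = fun x => ‖x 0‖ ^ 2 + (‖x 1‖ ^ 2) ^ 2 - 1 := by
    funext x; unfold rho; ring
  rw [e]
  exact ((h 0).add ((h 1).pow 2)).sub contDiff_const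

lemma hasFDerivAt_rho (x : E) : HasFDerivAt rho
    ((2 : ℝ) • (innerSL ℝ (x 0)).comp (P 0) + (4 * ‖x 1‖ ^ 2) • (innerSL ℝ (x 1)).comp (P 1)) x := by
  have h0 : HasFDerivAt (fun x : E => ‖x 0‖ ^ 2) (2 • (innerSL ℝ (x 0)).comp (P 0)) x :=
    HasFDerivAt.norm_sq (f := fun x : E => x 0) (P 0).hasFDerivAt
  have h1 : HasFDerivAt (fun x : E => ‖x 1‖ ^ 2) (2 • (innerSL ℝ (x 1)).comp (P 1)) x :=
    HasFDerivAt.norm_sq (f := fun x : E => x 1) (P 1).hasFDerivAt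
  have e : rho = fun x => ‖x 0‖ ^ 2 + (‖x 1‖ ^ 2) ^ 2 - 1 := by
    funext x; unfold rho; ring
  rw [e]
  refine ((h0.add (h1.pow 2)).sub_const 1).congr_fderiv ?_
  ext t
  simp
  ring

lemma fderiv_rho (x t : E) : fderiv ℝ rho x t =
    2 * inner ℝ (x 0) (t 0) + 4 * ‖x 1‖ ^ 2 * inner ℝ (x 1) (t 1) := by
  rw [(hasFDerivAt_rho x).fderiv]
  simp [P_apply]

lemma fderiv2_rho (x t : E) : fderiv ℝ (fderiv ℝ rho) x t t =
    2 * ‖t 0‖ ^ 2 + 8 * inner ℝ (x 1) (t 1) ^ 2 + 4 * ‖x 1‖ ^ 2 * ‖t 1‖ ^ 2 := by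
  have hd : DifferentiableAt ℝ (fderiv ℝ rho) x :=
    (smooth_rho.fderiv_right (m := 1) (by norm_cast)).differentiable (by norm_num) x
  have h1 : HasFDerivAt (fun y => fderiv ℝ rho y t)
      ((ContinuousLinearMap.apply ℝ ℝ t).comp (fderiv ℝ (fderiv ℝ rho) x)) x :=
    (ContinuousLinearMap.apply ℝ ℝ t).hasFDerivAt.comp x hd.hasFDerivAt
  have h2 : (fun y => fderiv ℝ rho y t) = fun y : E =>
      2 * inner ℝ (y 0) (t 0) + 4 * ‖y 1‖ ^ 2 * inner ℝ (y 1) (t 1) := funext fun y => fderiv_rho y t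
  have a0 : HasFDerivAt (fun y : E => inner ℝ (y 0) (t 0)) ((innerSL ℝ (t 0)).comp (P 0)) x := by
    have := ((innerSL ℝ (t 0)).comp (P 0)).hasFDerivAt (x := x)
    refine this.congr_of_eventuallyEq (Eventually.of_forall fun y => ?_)
    simp [P_apply, real_inner_comm]
  have a1 : HasFDerivAt (fun y : E => inner ℝ (y 1) (t 1)) ((innerSL ℝ (t 1)).comp (P 1)) x := by
    have := ((innerSL ℝ (t 1)).comp (P 1)).hasFDerivAt (x := x)
    refine this.congr_of_eventuallyEq (Eventually.of_forall fun y => ?_)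
    simp [P_apply, real_inner_comm]
  have h4 : HasFDerivAt (fun x : E => ‖x 1‖ ^ 2) (2 • (innerSL ℝ (x 1)).comp (P 1)) x :=
    HasFDerivAt.norm_sq (f := fun x : E => x 1) (P 1).hasFDerivAt
  have h3 := ((a0.const_mul 2).add ((h4.const_mul 4).mul a1))
  have h5 := h1.unique (by rw [h2]; exact h3)
  have h6 := congrArg (fun L : E →L[ℝ] ℝ => L t) h5
  simp [P_apply] at h6
  rw [h6, Complex.inner]
  simp
  ring

lemma secondDeriv_eq {ρ : E → ℝ} {x t : E} (hρ : ContDiffAt ℝ 2 ρ x) :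
    secondDeriv ρ x t = fderiv ℝ (fderiv ℝ ρ) x t t := by
  have hline : ∀ s : ℝ, HasDerivAt (fun s : ℝ => x + s • t) t s := by
    intro s
    have := ((hasDerivAt_id s).smul_const t).const_add x
    simpa using this
  have hcl : Tendsto (fun s : ℝ => x + s • t) (𝓝 0) (𝓝 x) := by
    have := (hline 0).continuousAt.tendsto
    simpa using this
  have h1 : ∀ᶠ y in 𝓝 x, ContDiffAt ℝ 2 ρ y := hρ.eventually (by norm_num)
  have h2 : ∀ᶠ s in 𝓝 (0:ℝ), deriv (fun s : ℝ => ρ (x + s • t)) s = fderiv ℝ ρ (x + s • t) t := by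
    filter_upwards [hcl.eventually h1] with s hs
    exact ((hs.differentiableAt (by norm_num)).hasFDerivAt.comp_hasDerivAt s (hline s)).deriv
  have h3 : HasDerivAt (fun s : ℝ => fderiv ℝ ρ (x + s • t) t) (fderiv ℝ (fderiv ℝ ρ) x t t) 0 := by
    have hd : DifferentiableAt ℝ (fderiv ℝ ρ) x :=
      (hρ.fderiv_right (m := 1) (by norm_num)).differentiableAt (by norm_num)
    have hd' : HasFDerivAt (fderiv ℝ ρ) (fderiv ℝ (fderiv ℝ ρ) x) (x + (0:ℝ) • t) := by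
      simpa using hd.hasFDerivAt
    have h3 := hd'.comp_hasDerivAt (0:ℝ) (hline 0)
    exact ((ContinuousLinearMap.apply ℝ ℝ t).hasFDerivAt.comp_hasDerivAt (0:ℝ) h3)
  unfold secondDeriv
  exact (h3.congr_of_eventuallyEq h2).deriv

lemma closure_le {x : E} (hx : x ∈ closure D) : ‖x 0‖ ^ 2 + ‖x 1‖ ^ 4 ≤ 1 := by
  have hc : IsClosed {x : E | ‖x 0‖ ^ 2 + ‖x 1‖ ^ 4 ≤ 1} := by
    apply isClosed_le _ continuous_const
    have h : ∀ i : Fin 2, Continuous (fun x : E => x i) := fun i => (P i).continuous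
    exact ((h 0).norm.pow 2).add ((h 1).norm.pow 4)
  exact closure_minimal (fun y hy => (mem_D.1 hy).le) hc hx

lemma isOpen_D : IsOpen D := by
  have h : ∀ i : Fin 2, Continuous (fun x : E => x i) := fun i => (P i).continuous
  exact isOpen_lt (((h 0).norm.pow 2).add ((h 1).norm.pow 4)) continuous_const

lemma frontier_eq {x : E} (hx : x ∈ frontier D) : ‖x 0‖ ^ 2 + ‖x 1‖ ^ 4 = 1 := by
  rw [isOpen_D.frontier_eq] at hx
  exact le_antisymm (closure_le hx.1) (not_lt.1 hx.2)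

lemma defining : IsDefining D univ rho where
  isOpen := isOpen_univ
  smooth := smooth_rho.contDiffOn
  eq := by
    ext x
    simp only [inter_univ, mem_univ, true_and, mem_ofPred_eq, mem_D, rho]
    constructor <;> intro h <;> linarith
  deriv_ne := by
    intro x hx h0
    have h1 := frontier_eq hx.1
    have h2 := fderiv_rho x x
    rw [h0, real_inner_self_eq_norm_sq, real_inner_self_eq_norm_sq] at h2
    have h3 : (0 : E →L[ℝ] ℝ) x = 0 := rfl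
    rw [h3] at h2
    nlinarith [sq_nonneg ‖x 0‖, sq_nonneg (‖x 1‖ ^ 2)]

lemma pseudoconvex (q : E) : PseudoconvexNear D q := by
  refine ⟨univ, rho, mem_univ _, defining, fun x _ t _ => ?_⟩
  have hs : ContDiffAt ℝ 2 rho x := (smooth_rho.of_le (by norm_cast)).contDiffAt
  unfold levi
  rw [secondDeriv_eq hs, secondDeriv_eq hs, fderiv2_rho, fderiv2_rho]
  positivity

lemma frontier_of_eq {x : E} (hx : ‖x 0‖ ^ 2 + ‖x 1‖ ^ 4 = 1) : x ∈ frontier D := by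
  rw [isOpen_D.frontier_eq]
  refine ⟨?_, fun h => absurd hx (mem_D.1 h).ne⟩
  have h1 : Tendsto (fun s : ℝ => (s : ℂ) • x) (𝓝[<] 1) (𝓝 x) := by
    have : Tendsto (fun s : ℝ => (s : ℂ) • x) (𝓝 1) (𝓝 (((1:ℝ):ℂ) • x)) :=
      ((Complex.continuous_ofReal.tendsto 1).smul_const x)
    rw [Complex.ofReal_one, one_smul] at this
    exact this.mono_left nhdsWithin_le_nhds
  refine mem_closure_of_tendsto h1 ?_
  have h2 : ∀ᶠ s : ℝ in 𝓝[<] 1, 0 < s := (eventually_gt_nhds (by norm_num)).filter_mono nhdsWithin_le_nhds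
  filter_upwards [h2, self_mem_nhdsWithin] with s hs0 hs1
  rw [mem_D]
  simp only [PiLp.smul_apply, smul_eq_mul, norm_mul, Complex.norm_real, Real.norm_of_nonneg hs0.le]
  rw [mul_pow, mul_pow]
  have hs1' : s < 1 := hs1
  have e1 : s ^ 2 < 1 := by nlinarith
  have e2 : s ^ 4 < 1 := by nlinarith [sq_nonneg s]
  have n0 : 0 ≤ ‖x 0‖ ^ 2 := by positivity
  have n1 : 0 ≤ ‖x 1‖ ^ 4 := by positivity
  rcases n0.eq_or_lt with h | h
  · have h5 : 0 < ‖x 1‖ ^ 4 := by linarith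
    nlinarith
  · nlinarith

/-! ### finite type -/

lemma finite_type_core {q : E} {γ : ℂ → E} (hγ : AnalyticAt ℂ γ 0) (h0 : γ 0 = q)
    (hq : ‖q 0‖ ^ 2 + ‖q 1‖ ^ 4 = 1) (m : ℕ)
    (hO : (fun ζ => rho (γ ζ)) =O[𝓝 0] fun ζ => ζ ^ (4 * m + 1)) :
    (fun ζ => γ ζ - q) =o[𝓝 0] fun ζ => ζ ^ m := by
  have hi : ∀ i : Fin 2, AnalyticAt ℂ (fun ζ => γ ζ i) 0 := fun i =>
    ((EuclideanSpace.proj (𝕜 := ℂ) i : E →L[ℂ] ℂ).analyticAt _).comp hγ
  obtain ⟨f, hf⟩ : ∃ f : ℂ → ℂ, f = fun ζ => γ ζ 0 - q 0 := ⟨_, rfl⟩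
  obtain ⟨g, hg⟩ : ∃ g : ℂ → ℂ, g = fun ζ => γ ζ 1 - q 1 := ⟨_, rfl⟩
  obtain ⟨G, hG⟩ : ∃ G : ℂ → ℂ, G = fun ζ => (γ ζ 1) ^ 2 - (q 1) ^ 2 := ⟨_, rfl⟩
  obtain ⟨h, hh⟩ : ∃ h : ℂ → ℂ, h = fun ζ => conj (q 0) * f ζ + conj (q 1) ^ 2 * G ζ := ⟨_, rfl⟩
  have hfa : AnalyticAt ℂ f 0 := by rw [hf]; exact (hi 0).sub analyticAt_const
  have hGa : AnalyticAt ℂ G 0 := by rw [hG]; exact ((hi 1).pow 2).sub analyticAt_const
  have hga : AnalyticAt ℂ g 0 := by rw [hg]; exact (hi 1).sub analyticAt_const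
  have hha : AnalyticAt ℂ h 0 := by
    rw [hh]; exact (analyticAt_const.mul hfa).add (analyticAt_const.mul hGa)
  have hh0 : h 0 = 0 := by rw [hh, hf, hG]; simp [h0]
  have hid : ∀ ζ, rho (γ ζ) = 2 * (h ζ).re + ‖f ζ‖ ^ 2 + ‖G ζ‖ ^ 2 := by
    intro ζ
    have e0 : γ ζ 0 = q 0 + f ζ := by rw [hf]; ring
    have e1 : (γ ζ 1) ^ 2 = (q 1) ^ 2 + G ζ := by rw [hG]; ring
    have e2 : ‖γ ζ 1‖ ^ 4 = ‖(q 1) ^ 2 + G ζ‖ ^ 2 := by
      rw [← e1, norm_pow]; ring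
    have e3 : ∀ u v : ℂ, ‖u + v‖ ^ 2 = ‖u‖ ^ 2 + 2 * (conj u * v).re + ‖v‖ ^ 2 := by
      intro u v
      rw [← Complex.normSq_eq_norm_sq, ← Complex.normSq_eq_norm_sq, ← Complex.normSq_eq_norm_sq,
        Complex.normSq_apply, Complex.normSq_apply, Complex.normSq_apply]
      simp
      ring
    unfold rho
    rw [e0, e2, e3, e3, hh, map_pow, norm_pow]
    simp only [Complex.add_re]
    have : (‖q 1‖ ^ 2) ^ 2 = ‖q 1‖ ^ 4 := by ring
    rw [this]
    linarith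
  -- step 1
  have s1 : h =O[𝓝 0] fun ζ => ζ ^ (4 * m + 1) := by
    by_cases hz : ∀ᶠ ζ in 𝓝 (0:ℂ), h ζ = 0
    · exact (isBigO_zero _ _).congr' (hz.mono fun ζ hζ => hζ.symm) (EventuallyEq.rfl)
    obtain ⟨k, H, hHa, hH0, hhH⟩ := hha.exists_eventuallyEq_pow_smul_nonzero_iff.2 hz
    simp only [sub_zero, smul_eq_mul] at hhH
    by_cases hk : 4 * m + 1 ≤ k
    · have h1 : (fun ζ : ℂ => ζ ^ k * H ζ) =O[𝓝 0] fun ζ => ζ ^ (4 * m + 1) := by
        obtain ⟨j, rfl⟩ := Nat.exists_eq_add_of_le hk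
        have h2 : (fun ζ : ℂ => ζ ^ j * H ζ) =O[𝓝 0] fun _ => (1:ℂ) := by
          exact Tendsto.isBigO_one ℂ
            (((continuous_pow j).continuousAt (x := (0:ℂ))).mul hHa.continuousAt).tendsto
        have h3 := (isBigO_refl (fun ζ : ℂ => ζ ^ (4 * m + 1)) (𝓝 0)).mul h2
        refine h3.congr (fun ζ => ?_) (fun ζ => by simp)
        rw [pow_add]; ring
      exact h1.congr' (hhH.mono fun ζ hζ => hζ.symm) EventuallyEq.rfl
    · exfalso
      have hk0 : k ≠ 0 := by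
        rintro rfl
        have := hhH.self_of_nhds
        rw [hh0, pow_zero, one_mul] at this
        exact hH0 this.symm
      obtain ⟨e, he⟩ := IsAlgClosed.exists_pow_nat_eq (conj (H 0) / ‖H 0‖) (Nat.pos_of_ne_zero hk0)
      have hHn : 0 < ‖H 0‖ := norm_pos_iff.2 hH0
      have hen : ‖e‖ = 1 := by
        have h1 : ‖e‖ ^ k = 1 := by
          rw [← norm_pow, he, norm_div, RCLike.norm_conj, Complex.norm_real, norm_norm, div_self hHn.ne']
        exact (pow_eq_one_iff_of_nonneg (norm_nonneg _) hk0).1 h1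
      have heH : e ^ k * H 0 = ‖H 0‖ := by
        rw [he, div_mul_eq_mul_div, mul_comm, Complex.mul_conj, Complex.normSq_eq_norm_sq]
        have : (‖H 0‖ : ℂ) ≠ 0 := by exact_mod_cast hHn.ne'
        push_cast
        field_simp
      obtain ⟨C, hC⟩ := hO.bound
      have ht : Tendsto (fun r : ℝ => (r : ℂ) * e) (𝓝[>] 0) (𝓝 0) := by
        have : Tendsto (fun r : ℝ => (r : ℂ) * e) (𝓝 0) (𝓝 (((0:ℝ):ℂ) * e)) :=
          (Complex.continuous_ofReal.tendsto 0).mul_const e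
        rw [Complex.ofReal_zero, zero_mul] at this
        exact this.mono_left nhdsWithin_le_nhds
      have hre : ∀ᶠ r : ℝ in 𝓝[>] 0, ‖H 0‖ / 2 ≤ (e ^ k * H (r * e)).re := by
        have h1 : Tendsto (fun r : ℝ => (e ^ k * H (r * e)).re) (𝓝[>] 0) (𝓝 (e ^ k * H 0).re) :=
          (Complex.continuous_re.tendsto _).comp (((hHa.continuousAt.tendsto).comp ht).const_mul _)
        rw [heH, Complex.ofReal_re] at h1
        exact h1.eventually_const_le (by linarith)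
      have hr1 : ∀ᶠ r : ℝ in 𝓝[>] 0, r ≤ 1 :=
        (eventually_le_nhds (by norm_num)).filter_mono nhdsWithin_le_nhds
      have hmain : ∀ᶠ r : ℝ in 𝓝[>] 0, ‖H 0‖ ≤ |C| * r := by
        filter_upwards [ht.eventually hC, ht.eventually hhH, hre, hr1, self_mem_nhdsWithin]
          with r h1 h2 h3 h4 h5
        have hr0 : 0 < r := h5
        rw [hid, norm_pow, norm_mul, Complex.norm_real, Real.norm_of_nonneg hr0.le, hen, mul_one] at h1
        have h6 : (h (r * e)).re = r ^ k * (e ^ k * H (r * e)).re := by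
          rw [h2, mul_pow, mul_assoc, ← Complex.ofReal_pow, Complex.re_ofReal_mul]
        have h7 : r ^ k * ‖H 0‖ ≤ 2 * (h (r * e)).re := by
          rw [h6]
          have := mul_le_mul_of_nonneg_left h3 (pow_nonneg hr0.le k)
          linarith
        have h8 : r ^ k * ‖H 0‖ ≤ |C| * r ^ (4 * m + 1) := by
          calc r ^ k * ‖H 0‖ ≤ 2 * (h (r * e)).re + ‖f (r * e)‖ ^ 2 + ‖G (r * e)‖ ^ 2 := by
                have := sq_nonneg ‖f (r * e)‖
                have := sq_nonneg ‖G (r * e)‖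
                linarith
            _ ≤ _ := le_abs_self _
            _ ≤ C * r ^ (4 * m + 1) := h1
            _ ≤ |C| * r ^ (4 * m + 1) := mul_le_mul_of_nonneg_right (le_abs_self _) (by positivity)
        have h9 : r ^ (4 * m + 1) ≤ r ^ (k + 1) := pow_le_pow_of_le_one hr0.le h4 (by omega)
        have h10 : r ^ k * ‖H 0‖ ≤ r ^ k * (|C| * r) := by
          calc r ^ k * ‖H 0‖ ≤ |C| * r ^ (4 * m + 1) := h8
            _ ≤ |C| * r ^ (k + 1) := mul_le_mul_of_nonneg_left h9 (abs_nonneg _)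
            _ = r ^ k * (|C| * r) := by ring
        exact le_of_mul_le_mul_left h10 (by positivity)
      have hlim : Tendsto (fun r : ℝ => |C| * r) (𝓝[>] 0) (𝓝 0) := by
        have : Tendsto (fun r : ℝ => |C| * r) (𝓝 0) (𝓝 (|C| * 0)) := tendsto_id.const_mul _
        rw [mul_zero] at this
        exact this.mono_left nhdsWithin_le_nhds
      have := ge_of_tendsto hlim hmain
      linarith
  -- step 2
  have s2 : (fun ζ => ‖f ζ‖ ^ 2 + ‖G ζ‖ ^ 2) =O[𝓝 0] fun ζ => ζ ^ (4 * m + 1) := by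
    have h1 : (fun ζ => 2 * (h ζ).re) =O[𝓝 0] fun ζ => ζ ^ (4 * m + 1) := by
      refine IsBigO.trans ?_ s1
      refine IsBigO.of_bound 2 (Eventually.of_forall fun ζ => ?_)
      rw [norm_mul, Real.norm_eq_abs, Real.norm_eq_abs, abs_two]
      exact mul_le_mul_of_nonneg_left (Complex.abs_re_le_norm _) (by norm_num)
    refine (hO.sub h1).congr (fun ζ => ?_) (fun ζ => rfl)
    rw [hid]; ring
  have s2f : (fun ζ => ‖f ζ‖ ^ 2) =O[𝓝 0] fun ζ => ζ ^ (4 * m + 1) := by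
    refine IsBigO.trans (IsBigO.of_bound 1 (Eventually.of_forall fun ζ => ?_)) s2
    rw [Real.norm_of_nonneg (by positivity), Real.norm_of_nonneg (by positivity), one_mul]
    linarith [sq_nonneg ‖G ζ‖]
  have s2G : (fun ζ => ‖G ζ‖ ^ 2) =O[𝓝 0] fun ζ => ζ ^ (4 * m + 1) := by
    refine IsBigO.trans (IsBigO.of_bound 1 (Eventually.of_forall fun ζ => ?_)) s2
    rw [Real.norm_of_nonneg (by positivity), Real.norm_of_nonneg (by positivity), one_mul]
    linarith [sq_nonneg ‖f ζ‖]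
  have hlt : (fun ζ : ℂ => ζ ^ (4 * m + 1)) =o[𝓝 0] fun ζ => ζ ^ (4 * m) :=
    isLittleO_pow_pow (by omega)
  have hle : (fun ζ : ℂ => ζ ^ (4 * m)) =O[𝓝 0] fun ζ => ζ ^ (2 * m) := by
    have h1 : (fun ζ : ℂ => ζ ^ (2 * m)) =O[𝓝 0] fun _ => (1:ℂ) :=
      Tendsto.isBigO_one ℂ ((continuous_pow (2 * m)).continuousAt (x := (0:ℂ))).tendsto
    refine ((isBigO_refl (fun ζ : ℂ => ζ ^ (2 * m)) (𝓝 0)).mul h1).congr (fun ζ => ?_)
      (fun ζ => by simp)
    rw [← pow_add]; congr 1; ring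
  have s3 : f =o[𝓝 0] fun ζ => ζ ^ m := by
    have h1 : (fun ζ => ‖f ζ‖ ^ 2) =o[𝓝 0] fun ζ => (‖ζ ^ m‖) ^ 2 := by
      have h3 := (s2f.trans_isLittleO hlt).trans_isBigO hle
      refine (isLittleO_norm_right.2 h3).congr_right fun ζ => ?_
      rw [norm_pow, norm_pow, ← pow_mul, mul_comm]
    exact (isLittleO_norm_norm.1 (h1.of_pow two_ne_zero))
  have s4 : ∀ᶠ ζ in 𝓝 (0:ℂ), ‖g ζ‖ ^ 2 ≤ ‖G ζ‖ := by
    have e1 : ∀ ζ, G ζ = g ζ * (2 * q 1 + g ζ) := by intro ζ; rw [hG, hg]; ring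
    by_cases hq1 : q 1 = 0
    · refine Eventually.of_forall fun ζ => ?_
      rw [e1, hq1, mul_zero, zero_add, norm_mul, pow_two]
    · have hg0 : g 0 = 0 := by rw [hg]; simp [h0]
      have h1 : ∀ᶠ ζ in 𝓝 (0:ℂ), ‖g ζ‖ < ‖q 1‖ := by
        have := hga.continuousAt.norm
        rw [ContinuousAt, hg0, norm_zero] at this
        exact this.eventually_lt_const (norm_pos_iff.2 hq1)
      filter_upwards [h1] with ζ hζ
      rw [e1, norm_mul, pow_two]
      apply mul_le_mul_of_nonneg_left _ (norm_nonneg _)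
      have h2 := norm_sub_norm_le (2 * q 1) (-g ζ)
      rw [sub_neg_eq_add, norm_neg, norm_mul] at h2
      have h3 : ‖(2:ℂ)‖ = 2 := by norm_num
      rw [h3] at h2
      linarith
  have s5 : g =o[𝓝 0] fun ζ => ζ ^ m := by
    have h1 : (fun ζ => ‖g ζ‖ ^ 4) =o[𝓝 0] fun ζ => (‖ζ ^ m‖) ^ 4 := by
      have h2 : (fun ζ => ‖g ζ‖ ^ 4) =O[𝓝 0] fun ζ => ‖G ζ‖ ^ 2 := by
        refine IsBigO.of_bound 1 (s4.mono fun ζ hζ => ?_)
        rw [Real.norm_of_nonneg (by positivity), Real.norm_of_nonneg (by positivity), one_mul]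
        calc ‖g ζ‖ ^ 4 = (‖g ζ‖ ^ 2) ^ 2 := by ring
          _ ≤ ‖G ζ‖ ^ 2 := pow_le_pow_left₀ (by positivity) hζ 2
      have h3 := (h2.trans s2G).trans_isLittleO hlt
      refine (isLittleO_norm_right.2 h3).congr_right fun ζ => ?_
      rw [norm_pow, norm_pow, ← pow_mul, mul_comm]
    exact (isLittleO_norm_norm.1 (h1.of_pow four_ne_zero))
  refine IsBigO.trans_isLittleO ?_ ((isLittleO_norm_left.2 s3).add (isLittleO_norm_left.2 s5))
  refine IsBigO.of_bound 1 (Eventually.of_forall fun ζ => ?_)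
  rw [one_mul, Real.norm_of_nonneg (by positivity)]
  have h1 : ‖γ ζ - q‖ ^ 2 = ‖f ζ‖ ^ 2 + ‖g ζ‖ ^ 2 := by
    rw [normsq, hf, hg]; rfl
  have h2 := norm_nonneg (f ζ)
  have h3 := norm_nonneg (g ζ)
  exact le_of_sq_le_sq (by nlinarith) (by positivity)


lemma finite_type {q : E} (hq : ‖q 0‖ ^ 2 + ‖q 1‖ ^ 4 = 1) : FiniteTypeAt D q := by
  refine ⟨univ, rho, mem_univ _, defining, 4, fun γ hγ h0 m hm hO => hm ?_⟩
  exact finite_type_core hγ h0 hq m hO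

/-! ### the Levi form vanishes -/

lemma deriv_zero {φ ψ : ℝ → ℝ} {C : ℝ} (hφ : ∀ᶠ s in 𝓝 (0:ℝ), HasDerivAt φ (ψ s) s)
    (hO : ∀ᶠ s in 𝓝 (0:ℝ), |φ s| ≤ C * s ^ 4) : φ 0 = 0 ∧ ψ 0 = 0 := by
  have h0 : φ 0 = 0 := by
    have := hO.self_of_nhds
    simpa using this
  refine ⟨h0, ?_⟩
  have h1 : HasDerivAt φ 0 0 := by
    rw [hasDerivAt_iff_isLittleO]
    simp only [h0, sub_zero, smul_zero]
    have h2 : φ =O[𝓝 0] fun s : ℝ => s ^ 4 := by
      refine IsBigO.of_bound C (hO.mono fun s hs => ?_)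
      rw [Real.norm_eq_abs, Real.norm_of_nonneg (by positivity)]
      exact hs
    have h3 : (fun s : ℝ => s ^ 4) =o[𝓝 0] fun s : ℝ => s ^ 1 := isLittleO_pow_pow (by norm_num)
    simpa using h2.trans_isLittleO h3
  exact hφ.self_of_nhds.unique h1

lemma second_le {φ ψ : ℝ → ℝ} {c C : ℝ} (hφ : ∀ᶠ s in 𝓝 (0:ℝ), HasDerivAt φ (ψ s) s)
    (hψ : HasDerivAt ψ c 0) (hO : ∀ᶠ s in 𝓝 (0:ℝ), |φ s| ≤ C * s ^ 4) : c ≤ 0 := by
  by_contra hc
  push Not at hc
  obtain ⟨h0, h1⟩ := deriv_zero hφ hO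
  have h2 : ∀ᶠ s in 𝓝[>] (0:ℝ), c / 2 * s ≤ ψ s := by
    have h3 := hψ.tendsto_slope_zero_right
    have h4 := h3.eventually_const_le (show c / 2 < c by linarith)
    filter_upwards [h4, self_mem_nhdsWithin] with s hs hs0
    have hs0' : (0:ℝ) < s := hs0
    rw [zero_add, h1, sub_zero, smul_eq_mul] at hs
    have := mul_le_mul_of_nonneg_right hs hs0'.le
    rw [inv_mul_eq_div, div_mul_cancel₀ _ hs0'.ne'] at this
    exact this
  obtain ⟨δ, hδ, hδ1⟩ := (mem_nhdsGT_iff_exists_Ioo_subset.1 h2)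
  obtain ⟨δ', hδ', hδ2⟩ := Metric.eventually_nhds_iff.1 hφ
  obtain ⟨δ'', hδ'', hδ3⟩ := Metric.eventually_nhds_iff.1 hO
  have hδ0 : (0:ℝ) < δ := hδ
  have key : ∀ s : ℝ, 0 < s → s < δ → s < δ' → s < δ'' → c / 4 ≤ C * s ^ 2 := by
    intro s hs1 hs2 hs3 hs4
    have hd : ∀ y ∈ Icc (0:ℝ) s, HasDerivAt (fun y => φ y - c / 4 * y ^ 2) (ψ y - c / 2 * y) y := by
      intro y hy
      have h5 : HasDerivAt φ (ψ y) y := hδ2 (by
        rw [Real.dist_eq, sub_zero, abs_of_nonneg hy.1]; linarith [hy.2])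
      refine (h5.sub ((hasDerivAt_pow 2 y).const_mul (c / 4))).congr_deriv ?_
      push_cast
      ring
    have hm : MonotoneOn (fun y => φ y - c / 4 * y ^ 2) (Icc 0 s) := by
      apply monotoneOn_of_deriv_nonneg (convex_Icc 0 s)
      · exact fun y hy => (hd y hy).continuousAt.continuousWithinAt
      · intro y hy
        rw [interior_Icc] at hy
        exact (hd y ⟨hy.1.le, hy.2.le⟩).differentiableAt.differentiableWithinAt
      · intro y hy
        rw [interior_Icc] at hy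
        rw [(hd y ⟨hy.1.le, hy.2.le⟩).deriv]
        have := hδ1 ⟨hy.1, hy.2.trans hs2⟩
        have h6 : c / 2 * y ≤ ψ y := this
        linarith
    have h7 := hm (left_mem_Icc.2 hs1.le) (right_mem_Icc.2 hs1.le) hs1.le
    simp only [h0] at h7
    have h8 := hδ3 (show dist s 0 < δ'' by rw [Real.dist_eq, sub_zero, abs_of_pos hs1]; exact hs4)
    have h9 := (le_abs_self _).trans h8
    have h10 : c / 4 * s ^ 2 ≤ C * s ^ 2 * s ^ 2 := by nlinarith
    exact le_of_mul_le_mul_right h10 (by positivity)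
  have hlim : Tendsto (fun s : ℝ => C * s ^ 2) (𝓝[>] 0) (𝓝 0) := by
    have : Tendsto (fun s : ℝ => C * s ^ 2) (𝓝 0) (𝓝 (C * 0 ^ 2)) :=
      ((continuous_const.mul (continuous_pow 2)).tendsto 0)
    simp only [ne_eq, OfNat.ofNat_ne_zero, not_false_eq_true, zero_pow, mul_zero] at this
    exact this.mono_left nhdsWithin_le_nhds
  have hev : ∀ᶠ s in 𝓝[>] (0:ℝ), c / 4 ≤ C * s ^ 2 := by
    have e1 : ∀ᶠ s in 𝓝[>] (0:ℝ), s < δ := (eventually_lt_nhds hδ0).filter_mono nhdsWithin_le_nhds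
    have e2 : ∀ᶠ s in 𝓝[>] (0:ℝ), s < δ' := (eventually_lt_nhds hδ').filter_mono nhdsWithin_le_nhds
    have e3 : ∀ᶠ s in 𝓝[>] (0:ℝ), s < δ'' := (eventually_lt_nhds hδ'').filter_mono nhdsWithin_le_nhds
    filter_upwards [e1, e2, e3, self_mem_nhdsWithin] with s h1 h2 h3 h4
    exact key s h4 h1 h2 h3
  have := ge_of_tendsto hlim hev
  linarith

lemma second_zero {φ ψ : ℝ → ℝ} {c C : ℝ} (hφ : ∀ᶠ s in 𝓝 (0:ℝ), HasDerivAt φ (ψ s) s)
    (hψ : HasDerivAt ψ c 0) (hO : ∀ᶠ s in 𝓝 (0:ℝ), |φ s| ≤ C * s ^ 4) : c = 0 := by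
  apply le_antisymm (second_le hφ hψ hO)
  have h := second_le (φ := fun s => -φ s) (ψ := fun s => -ψ s) (c := -c) (C := C)
    (hφ.mono fun s hs => hs.neg) hψ.neg (hO.mono fun s hs => by rw [abs_neg]; exact hs)
  linarith

/-- the point `(1, 0)` -/
noncomputable def p₀ : E := !₂[1, 0]

lemma p₀_eq : ‖p₀ 0‖ ^ 2 + ‖p₀ 1‖ ^ 4 = 1 := by
  have h0 : p₀ 0 = 1 := rfl
  have h1 : p₀ 1 = 0 := rfl
  rw [h0, h1]; simp

lemma flat {U : Set E} {ρ : E → ℝ} (hp : p₀ ∈ U) (hρ : IsDefining D U ρ) {w : ℂ} (hw : ‖w‖ = 1) :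
    fderiv ℝ ρ p₀ !₂[0, w] = 0 ∧ fderiv ℝ (fderiv ℝ ρ) p₀ !₂[0, w] !₂[0, w] = 0 := by
  set t : E := !₂[0, w] with ht
  have t0 : t 0 = 0 := rfl
  have t1 : t 1 = w := rfl
  have hU := hρ.isOpen.mem_nhds hp
  have hsm : ContDiffAt ℝ ∞ ρ p₀ := hρ.smooth.contDiffAt hU
  have hline : ∀ s : ℝ, HasDerivAt (fun s : ℝ => p₀ + s • t) t s := by
    intro s
    have := ((hasDerivAt_id s).smul_const t).const_add p₀
    simpa using this
  have hcl : Tendsto (fun s : ℝ => p₀ + s • t) (𝓝 0) (𝓝 p₀) := by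
    have := (hline 0).continuousAt.tendsto
    simpa using this
  set ψ : ℝ → ℝ := fun s => fderiv ℝ ρ (p₀ + s • t) t with hψ
  have h1 : ∀ᶠ s in 𝓝 (0:ℝ), HasDerivAt (fun s : ℝ => ρ (p₀ + s • t)) (ψ s) s := by
    filter_upwards [hcl.eventually hU] with s hs
    have hd : DifferentiableAt ℝ ρ (p₀ + s • t) :=
      (hρ.smooth.contDiffAt (hρ.isOpen.mem_nhds hs)).differentiableAt (by simp)
    exact hd.hasFDerivAt.comp_hasDerivAt s (hline s)
  have h2 : HasDerivAt ψ (fderiv ℝ (fderiv ℝ ρ) p₀ t t) 0 := by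
    have hd : DifferentiableAt ℝ (fderiv ℝ ρ) p₀ :=
      (hsm.fderiv_right (m := 1) (by norm_cast)).differentiableAt (by norm_num)
    have hd' : HasFDerivAt (fderiv ℝ ρ) (fderiv ℝ (fderiv ℝ ρ) p₀) (p₀ + (0:ℝ) • t) := by
      simpa using hd.hasFDerivAt
    have h3 := hd'.comp_hasDerivAt (0:ℝ) (hline 0)
    exact ((ContinuousLinearMap.apply ℝ ℝ t).hasFDerivAt.comp_hasDerivAt (0:ℝ) h3)
  -- the boundary curve
  set b : ℝ → E := fun s => !₂[((√(1 - s ^ 4) : ℝ) : ℂ), (s : ℂ) * w] with hb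
  have b0 : ∀ s, b s 0 = ((√(1 - s ^ 4) : ℝ) : ℂ) := fun s => rfl
  have b1 : ∀ s, b s 1 = (s : ℂ) * w := fun s => rfl
  have hbfr : ∀ s : ℝ, |s| ≤ 1 → b s ∈ frontier D := by
    intro s hs
    apply frontier_of_eq
    have h4 : s ^ 4 ≤ 1 := by
      have : |s| ^ 4 ≤ 1 := pow_le_one₀ (abs_nonneg _) hs
      rwa [Even.pow_abs (by decide)] at this
    rw [b0, b1, norm_mul, hw, mul_one, Complex.norm_real, Complex.norm_real, Real.norm_eq_abs,
      Real.norm_eq_abs, sq_abs, Real.sq_sqrt (by linarith), Even.pow_abs (by decide)]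
    ring
  have hdist : ∀ s : ℝ, |s| ≤ 1 → ‖(p₀ + s • t) - b s‖ ≤ s ^ 4 := by
    intro s hs
    have h4 : s ^ 4 ≤ 1 := by
      have : |s| ^ 4 ≤ 1 := pow_le_one₀ (abs_nonneg _) hs
      rwa [Even.pow_abs (by decide)] at this
    have h40 : 0 ≤ s ^ 4 := by positivity
    have e0 : ((p₀ + s • t) - b s) 0 = ((1 - √(1 - s ^ 4) : ℝ) : ℂ) := by
      show p₀ 0 + s • t 0 - b s 0 = _
      rw [t0, b0, show p₀ 0 = 1 from rfl]
      push_cast; simp
    have e1 : ((p₀ + s • t) - b s) 1 = 0 := by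
      show p₀ 1 + s • t 1 - b s 1 = _
      rw [t1, b1, show p₀ 1 = 0 from rfl]
      simp
    have hs1 : √(1 - s ^ 4) ≤ 1 := Real.sqrt_le_one.2 (by linarith)
    have hs2 : 1 - s ^ 4 ≤ √(1 - s ^ 4) := by
      have h5 : 0 ≤ 1 - s ^ 4 := by linarith
      have h6 := Real.sqrt_nonneg (1 - s ^ 4)
      nlinarith [Real.mul_self_sqrt h5]
    have h7 : ‖(p₀ + s • t) - b s‖ ^ 2 ≤ (s ^ 4) ^ 2 := by
      rw [normsq, e0, e1, norm_zero, Complex.norm_real, Real.norm_of_nonneg (by linarith)]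
      nlinarith
    exact le_of_sq_le_sq h7 h40
  have hbt : Tendsto b (𝓝 0) (𝓝 p₀) := by
    have h8 : Tendsto (fun s : ℝ => (p₀ + s • t) - b s) (𝓝 0) (𝓝 0) := by
      rw [tendsto_zero_iff_norm_tendsto_zero]
      have h9 : Tendsto (fun s : ℝ => s ^ 4) (𝓝 0) (𝓝 0) := by
        have := (continuous_pow 4).tendsto (0:ℝ)
        simpa using this
      refine squeeze_zero' (Eventually.of_forall fun s => norm_nonneg _) ?_ h9
      have : ∀ᶠ s : ℝ in 𝓝 0, |s| < 1 := by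
        have := (continuous_abs.tendsto (0:ℝ)).eventually_lt_const (show |(0:ℝ)| < 1 by simp)
        exact this
      filter_upwards [this] with s hs
      exact hdist s hs.le
    have := hcl.sub h8
    simpa using this
  have hzero : ∀ x ∈ frontier D, x ∈ U → ρ x = 0 := by
    intro x hx hxU
    rw [isOpen_D.frontier_eq] at hx
    apply le_antisymm
    · have hcont : ContinuousAt ρ x := (hρ.smooth.contDiffAt (hρ.isOpen.mem_nhds hxU)).continuousAt
      have hcl : x ∈ closure (D ∩ U) := by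
        rw [mem_closure_iff_nhds]
        intro V hV
        obtain ⟨y, hy1, hy2⟩ := mem_closure_iff_nhds.1 hx.1 (V ∩ U)
          (inter_mem hV (hρ.isOpen.mem_nhds hxU))
        exact ⟨y, hy1.1, hy2, hy1.2⟩
      obtain ⟨u, hu1, hu2⟩ := mem_closure_iff_seq_limit.1 hcl
      refine le_of_tendsto (hcont.tendsto.comp hu2) (Eventually.of_forall fun n => ?_)
      have := hu1 n
      rw [hρ.eq] at this
      exact this.2.le
    · by_contra hlt
      push Not at hlt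
      have : x ∈ D ∩ U := by rw [hρ.eq]; exact ⟨hxU, hlt⟩
      exact hx.2 this.1
  obtain ⟨K, V, hV, hLip⟩ := (hsm.of_le (show (1 : WithTop ℕ∞) ≤ ∞ by norm_cast)).exists_lipschitzOnWith
  have hO : ∀ᶠ s in 𝓝 (0:ℝ), |ρ (p₀ + s • t)| ≤ (K:ℝ) * s ^ 4 := by
    have hs1 : ∀ᶠ s : ℝ in 𝓝 0, |s| < 1 := by
      have := (continuous_abs.tendsto (0:ℝ)).eventually_lt_const (show |(0:ℝ)| < 1 by simp)
      exact this
    filter_upwards [hs1, hcl.eventually hV, hbt.eventually hV, hbt.eventually hU]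
      with s h1 h2 h3 h4
    have h5 := hLip.dist_le_mul _ h2 _ h3
    rw [hzero _ (hbfr s h1.le) h4, Real.dist_eq, sub_zero, dist_eq_norm] at h5
    exact h5.trans (mul_le_mul_of_nonneg_left (hdist s h1.le) K.2)
  have r1 := deriv_zero h1 hO
  have r2 := second_zero h1 h2 hO
  refine ⟨?_, r2⟩
  have := r1.2
  simp only [hψ, zero_smul, add_zero] at this
  exact this

lemma not_strong : ¬ StronglyPseudoconvexAt D p₀ := by
  rintro ⟨U, ρ, hp, hρ, h⟩
  have hI : Complex.I • (!₂[0, 1] : E) = !₂[0, Complex.I] := by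
    ext i; fin_cases i <;> simp
  obtain ⟨a1, a2⟩ := flat hp hρ (w := 1) (by simp)
  obtain ⟨b1, b2⟩ := flat hp hρ (w := Complex.I) (by simp)
  have ht : (!₂[0, 1] : E) ≠ 0 := by
    intro h0
    have := congrArg (fun v : E => v 1) h0
    simp at this
  have hs : ContDiffAt ℝ 2 ρ p₀ :=
    (hρ.smooth.contDiffAt (hρ.isOpen.mem_nhds hp)).of_le (by norm_cast)
  have := h !₂[0, 1] ht ⟨a1, by rw [hI]; exact b1⟩
  unfold levi at this
  rw [secondDeriv_eq hs, secondDeriv_eq hs, hI, a2, b2] at this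
  norm_num at this


/-! ### the embeddings -/

noncomputable def S (a : ℝ) (x : E) : ℂ := (1 - a * x 0) ^ (1 / 2 : ℂ)

lemma re_pos {a : ℝ} (ha0 : 0 ≤ a) (ha : a < 1) {u : ℂ} (hu : ‖u‖ < 1) : 0 < (1 - a * u).re := by
  have h1 : |u.re| ≤ ‖u‖ := Complex.abs_re_le_norm u
  have h2 := (abs_le.1 h1).2
  simp only [Complex.sub_re, Complex.one_re, Complex.mul_re, Complex.ofReal_re, Complex.ofReal_im,
    zero_mul, sub_zero]
  nlinarith

lemma sq_S {a : ℝ} {x : E} : S a x ^ 2 = 1 - a * x 0 := by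
  unfold S
  rw [show (1 / 2 : ℂ) = ((2:ℕ):ℂ)⁻¹ by norm_num]
  exact Complex.cpow_nat_inv_pow _ two_ne_zero

/-- first coordinate of the automorphism -/
noncomputable def z1 (a : ℝ) (x : E) : ℂ := (x 0 - a) / (1 - a * x 0)

noncomputable def w1 (a k : ℝ) (x : E) : ℂ := k * x 1 / S a x

noncomputable def F (a k η : ℝ) (x : E) : E :=
  !₂[(√η : ℂ) * z1 a x / (1 - w1 a k x + η), (1 - w1 a k x - η) / (1 - w1 a k x + η)]

lemma x0_lt {x : E} (hx : x ∈ D) : ‖x 0‖ < 1 := by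
  have h := mem_D.1 hx
  have h1 : 0 ≤ ‖x 1‖ ^ 4 := by positivity
  nlinarith [norm_nonneg (x 0)]

/-- the key identity -/
lemma key {a k : ℝ} (hk : k ^ 4 = 1 - a ^ 2) (hk0 : 0 ≤ k) {x : E} (h0 : 1 - a * x 0 ≠ 0) :
    ‖1 - a * x 0‖ ^ 2 * (1 - ‖z1 a x‖ ^ 2 - ‖w1 a k x‖ ^ 4) =
      (1 - a ^ 2) * (1 - ‖x 0‖ ^ 2 - ‖x 1‖ ^ 4) := by
  have hS : ‖S a x‖ ^ 2 = ‖1 - a * x 0‖ := by
    rw [← norm_pow, sq_S]
  have hn : 0 < ‖1 - a * x 0‖ := norm_pos_iff.2 h0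
  have hS4 : ‖S a x‖ ^ 4 = ‖1 - a * x 0‖ ^ 2 := by
    rw [← hS]; ring
  have e1 : ‖z1 a x‖ ^ 2 = ‖x 0 - a‖ ^ 2 / ‖1 - a * x 0‖ ^ 2 := by
    unfold z1; rw [norm_div, div_pow]
  have e2 : ‖w1 a k x‖ ^ 4 = (1 - a ^ 2) * ‖x 1‖ ^ 4 / ‖1 - a * x 0‖ ^ 2 := by
    unfold w1
    rw [norm_div, norm_mul, div_pow, mul_pow, hS4, Complex.norm_real, Real.norm_of_nonneg hk0, hk]
  have e3 : ‖1 - a * x 0‖ ^ 2 = ‖x 0 - a‖ ^ 2 + (1 - a ^ 2) * (1 - ‖x 0‖ ^ 2) := by
    rw [← Complex.normSq_eq_norm_sq, ← Complex.normSq_eq_norm_sq, ← Complex.normSq_eq_norm_sq,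
      Complex.normSq_apply, Complex.normSq_apply, Complex.normSq_apply]
    simp
    ring
  rw [e1, e2]
  have : ‖1 - a * x 0‖ ^ 2 ≠ 0 := by positivity
  field_simp
  linarith

lemma quart {t : ℝ} (h0 : 0 ≤ t) (h1 : t ≤ 1) : 1 - t ^ 4 ≤ 4 * (1 - t) := by
  nlinarith [mul_nonneg (sub_nonneg.2 h1) (sub_nonneg.2 (pow_le_one₀ (n := 3) h0 h1)),
    mul_nonneg (sub_nonneg.2 h1) (sub_nonneg.2 (pow_le_one₀ (n := 2) h0 h1)),
    mul_nonneg (sub_nonneg.2 h1) (sub_nonneg.2 h1)]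

variable {a k η : ℝ}

/-- properties of the image under the automorphism -/
lemma image_D (ha0 : 0 ≤ a) (ha : a < 1) (hk : k ^ 4 = 1 - a ^ 2) (hk0 : 0 ≤ k) {x : E}
    (hx : x ∈ D) : ‖z1 a x‖ ^ 2 + ‖w1 a k x‖ ^ 4 < 1 := by
  have hr := re_pos ha0 ha (x0_lt hx)
  have h0 : 1 - a * x 0 ≠ 0 := fun h => by rw [h] at hr; simp at hr
  have h1 := key hk hk0 h0
  have h2 : 0 < (1 - a ^ 2) * (1 - ‖x 0‖ ^ 2 - ‖x 1‖ ^ 4) :=
    mul_pos (by nlinarith) (by have := mem_D.1 hx; linarith)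
  rw [← h1] at h2
  have h3 := (mul_pos_iff_of_pos_left (by have := norm_pos_iff.2 h0; positivity)).1 h2
  linarith

lemma re_w1 {w : ℂ} {z : ℂ} (h : ‖z‖ ^ 2 + ‖w‖ ^ 4 < 1) : ‖z‖ ^ 2 < 4 * (1 - w).re ∧ 0 < (1 - w).re := by
  have h1 : ‖w‖ < 1 := by
    have : ‖w‖ ^ 4 < 1 := by nlinarith [sq_nonneg ‖z‖]
    exact lt_of_pow_lt_pow_left₀ 4 zero_le_one (by simpa using this)
  have h2 := quart (norm_nonneg w) h1.le
  have h3 : w.re ≤ ‖w‖ := (le_abs_self _).trans (Complex.abs_re_le_norm w)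
  simp only [Complex.sub_re, Complex.one_re]
  constructor <;> linarith

lemma norm_cayley {ζ : ℂ} (η : ℝ) : ‖ζ + η‖ ^ 2 = ‖ζ - η‖ ^ 2 + 4 * η * ζ.re := by
  rw [← Complex.normSq_eq_norm_sq, ← Complex.normSq_eq_norm_sq, Complex.normSq_apply,
    Complex.normSq_apply]
  simp
  ring

lemma ne_zero_of_re {ζ : ℂ} (h : 0 < ζ.re) : ζ ≠ 0 := fun h0 => by rw [h0] at h; simp at h

lemma F_ball (ha0 : 0 ≤ a) (ha : a < 1) (hk : k ^ 4 = 1 - a ^ 2) (hk0 : 0 ≤ k) (hη : 0 < η) {x : E}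
    (hx : x ∈ D) : F a k η x ∈ ball (0 : E) 1 := by
  have h1 := image_D ha0 ha hk hk0 hx
  obtain ⟨h2, h3⟩ := re_w1 h1
  rw [mem_ball_zero_iff]
  have h4 : 0 < (1 - w1 a k x + η).re := by
    simp only [Complex.add_re, Complex.ofReal_re]; linarith
  have h5 : 0 < ‖1 - w1 a k x + η‖ := norm_pos_iff.2 (ne_zero_of_re h4)
  have h6 : ‖F a k η x‖ ^ 2 < 1 := by
    rw [normsq]
    have e0 : F a k η x 0 = (√η : ℂ) * z1 a x / (1 - w1 a k x + η) := rfl
    have e1 : F a k η x 1 = (1 - w1 a k x - η) / (1 - w1 a k x + η) := rfl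
    rw [e0, e1, norm_div, norm_div, norm_mul, div_pow, div_pow, ← add_div, div_lt_one (by positivity),
      mul_pow, Complex.norm_real, Real.norm_of_nonneg (Real.sqrt_nonneg _), Real.sq_sqrt hη.le,
      norm_cayley]
    nlinarith
  exact lt_of_pow_lt_pow_left₀ 2 zero_le_one (by simpa using h6)

lemma mobius_inj {η : ℝ} (hη : 0 < η) {ζ ξ : ℂ} (h1 : ζ + η ≠ 0) (h2 : ξ + η ≠ 0)
    (h : (ζ - η) / (ζ + η) = (ξ - η) / (ξ + η)) : ζ = ξ := by
  rw [div_eq_div_iff h1 h2] at h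
  have h3 : (2 * (η : ℂ)) * (ζ - ξ) = 0 := by linear_combination h
  have hη' : (2 * (η : ℂ)) ≠ 0 := mul_ne_zero two_ne_zero (by exact_mod_cast hη.ne')
  exact sub_eq_zero.1 ((mul_eq_zero.1 h3).resolve_left hη')

lemma F_inj (ha0 : 0 ≤ a) (ha : a < 1) (hk : k ^ 4 = 1 - a ^ 2) (hk0 : 0 < k) (hη : 0 < η) :
    InjOn (F a k η) D := by
  intro x hx y hy hxy
  have hx1 := image_D ha0 ha hk hk0.le hx
  have hy1 := image_D ha0 ha hk hk0.le hy
  have hxr : 0 < (1 - w1 a k x + η).re := by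
    have := (re_w1 hx1).2
    simp only [Complex.add_re, Complex.ofReal_re]; linarith
  have hyr : 0 < (1 - w1 a k y + η).re := by
    have := (re_w1 hy1).2
    simp only [Complex.add_re, Complex.ofReal_re]; linarith
  have e0 : (√η : ℂ) * z1 a x / (1 - w1 a k x + η) = (√η : ℂ) * z1 a y / (1 - w1 a k y + η) :=
    congrArg (fun v : E => v 0) hxy
  have e1 : (1 - w1 a k x - η) / (1 - w1 a k x + η) = (1 - w1 a k y - η) / (1 - w1 a k y + η) :=
    congrArg (fun v : E => v 1) hxy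
  have hζ := mobius_inj hη (ne_zero_of_re hxr) (ne_zero_of_re hyr) e1
  rw [hζ] at e0
  have hη' : (√η : ℂ) ≠ 0 := by exact_mod_cast (Real.sqrt_pos.2 hη).ne'
  have hz : z1 a x = z1 a y := by
    rw [div_left_inj' (ne_zero_of_re hyr)] at e0
    exact mul_left_cancel₀ hη' e0
  have hxd := re_pos ha0 ha (x0_lt hx)
  have hyd := re_pos ha0 ha (x0_lt hy)
  have hx0 : x 0 = y 0 := by
    unfold z1 at hz
    rw [div_eq_div_iff (ne_zero_of_re hxd) (ne_zero_of_re hyd)] at hz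
    have h3 : (1 - (a:ℂ) ^ 2) * (x 0 - y 0) = 0 := by linear_combination hz
    have h4 : (1 - (a:ℂ) ^ 2) ≠ 0 := by
      have : (1 - a ^ 2 : ℝ) ≠ 0 := by nlinarith
      exact_mod_cast this
    exact sub_eq_zero.1 ((mul_eq_zero.1 h3).resolve_left h4)
  have hx1' : x 1 = y 1 := by
    have h5 : w1 a k x = w1 a k y := by
      have := congrArg (fun v => 1 - v) hζ
      simpa using this
    have hS : S a x = S a y := by unfold S; rw [hx0]
    have hS0 : S a y ≠ 0 := fun h => ne_zero_of_re hyd (by rw [← sq_S, h]; simp)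
    unfold w1 at h5
    rw [hS, div_left_inj' hS0] at h5
    have hk0' : (k:ℂ) ≠ 0 := by exact_mod_cast hk0.ne'
    exact mul_left_cancel₀ hk0' h5
  ext i
  fin_cases i
  · exact hx0
  · exact hx1'

lemma F_diff (ha0 : 0 ≤ a) (ha : a < 1) (hk : k ^ 4 = 1 - a ^ 2) (hk0 : 0 < k) (hη : 0 < η) :
    DifferentiableOn ℂ (F a k η) D := by
  have hp : ∀ i : Fin 2, Differentiable ℂ (fun x : E => x i) := fun i =>
    (EuclideanSpace.proj (𝕜 := ℂ) i : E →L[ℂ] ℂ).differentiable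
  have hS : DifferentiableOn ℂ (S a) D := by
    intro x hx
    apply DifferentiableAt.differentiableWithinAt
    unfold S
    refine DifferentiableAt.cpow ?_ (differentiableAt_const _) ?_
    · exact ((hp 0 x).const_mul _).const_sub _
    · exact Or.inl (re_pos ha0 ha (x0_lt hx))
  have hS0 : ∀ x ∈ D, S a x ≠ 0 := fun x hx h =>
    ne_zero_of_re (re_pos ha0 ha (x0_lt hx)) (by rw [← sq_S, h]; simp)
  have hz : DifferentiableOn ℂ (z1 a) D := by
    unfold z1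
    simp only [div_eq_mul_inv]
    refine ((hp 0).differentiableOn.sub_const _).mul
      ((((hp 0).differentiableOn.const_mul _).const_sub _).inv ?_)
    intro x hx
    exact ne_zero_of_re (re_pos ha0 ha (x0_lt hx))
  have hw : DifferentiableOn ℂ (w1 a k) D := by
    unfold w1
    simp only [div_eq_mul_inv]
    exact ((hp 1).differentiableOn.const_mul _).mul (hS.inv hS0)
  have hn : ∀ x ∈ D, 1 - w1 a k x + η ≠ 0 := by
    intro x hx
    have := (re_w1 (image_D ha0 ha hk hk0.le hx)).2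
    apply ne_zero_of_re
    simp only [Complex.add_re, Complex.ofReal_re]; linarith
  rw [differentiableOn_euclidean]
  intro i
  fin_cases i
  · show DifferentiableOn ℂ (fun x => (√η : ℂ) * z1 a x / (1 - w1 a k x + η)) D
    simp only [div_eq_mul_inv]
    exact (hz.const_mul _).mul (((hw.const_sub _).add_const _).inv hn)
  · show DifferentiableOn ℂ (fun x => (1 - w1 a k x - η) / (1 - w1 a k x + η)) D
    simp only [div_eq_mul_inv]
    exact ((hw.const_sub _).sub_const _).mul (((hw.const_sub _).add_const _).inv hn)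

lemma mob {a z : ℂ} (h : 1 + a * z ≠ 0) (ha : 1 - a ^ 2 ≠ 0) :
    ((z + a) / (1 + a * z) - a) / (1 - a * ((z + a) / (1 + a * z))) = z := by
  have h1 : (z + a) / (1 + a * z) - a = z * ((1 - a ^ 2) / (1 + a * z)) := by
    rw [div_sub' h, mul_div_assoc', div_left_inj' h]
    ring
  have h2 : 1 - a * ((z + a) / (1 + a * z)) = (1 - a ^ 2) / (1 + a * z) := by
    rw [mul_div_assoc', sub_div' h, div_left_inj' h]
    ring
  rw [h1, h2, mul_div_assoc, div_self (div_ne_zero ha h), mul_one]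

/-- the constant -/
noncomputable def M (r : ℝ) : ℝ := 2 / (1 - r)
noncomputable def K (r : ℝ) : ℝ := 2 * M r ^ 2 + (2 * M r + M r ^ 2) ^ 2

lemma F_surj (ha0 : 0 ≤ a) (ha : a < 1) (hk : k ^ 4 = 1 - a ^ 2) (hk0 : 0 < k) (hη : 0 < η)
    (hη1 : η ≤ 1) {r : ℝ} (hr0 : 0 < r) (hr : r < 1) (hK : K r * η < 1 - r ^ 2) :
    ball (0 : E) r ⊆ F a k η '' D := by
  intro y hy
  rw [mem_ball_zero_iff] at hy
  set u := y 0 with hu
  set v := y 1 with hv
  have hyy : ‖u‖ ^ 2 + ‖v‖ ^ 2 < r ^ 2 := by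
    rw [← normsq]
    exact pow_lt_pow_left₀ hy (norm_nonneg _) two_ne_zero
  have hvr : ‖v‖ < r := by
    refine lt_of_pow_lt_pow_left₀ 2 hr0.le ?_
    nlinarith [sq_nonneg ‖u‖]
  have hv1 : ‖v‖ < 1 := hvr.trans hr
  have hd0 : 0 < (1 - v).re := by
    have h3 : v.re ≤ ‖v‖ := (le_abs_self _).trans (Complex.abs_re_le_norm v)
    simp only [Complex.sub_re, Complex.one_re]; linarith
  have hd : 1 - v ≠ 0 := ne_zero_of_re hd0
  have hdn : 1 - r ≤ ‖1 - v‖ := by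
    have := norm_sub_norm_le (1:ℂ) v
    rw [norm_one] at this
    linarith
  have hdn0 : 0 < ‖1 - v‖ := norm_pos_iff.2 hd
  have hdn2 : ‖1 - v‖ ≤ 2 := by
    have := norm_sub_le (1:ℂ) v
    rw [norm_one] at this
    linarith
  set c : ℂ := (1 + v) / (1 - v) with hc
  have hcn : ‖c‖ ≤ M r := by
    rw [hc, norm_div]
    unfold M
    have h1 : ‖1 + v‖ ≤ 2 := by
      have := norm_add_le (1:ℂ) v
      rw [norm_one] at this
      linarith
    exact div_le_div₀ (by norm_num) h1 (by linarith) hdn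
  have hcre : c.re * ‖1 - v‖ ^ 2 = 1 - ‖v‖ ^ 2 := by
    rw [hc, Complex.div_re, ← Complex.normSq_eq_norm_sq, ← Complex.normSq_eq_norm_sq]
    have : Complex.normSq (1 - v) ≠ 0 := by
      rw [Complex.normSq_eq_norm_sq]; positivity
    field_simp
    rw [Complex.normSq_apply]
    simp
    ring
  have hM0 : 0 ≤ M r := (norm_nonneg c).trans hcn
  set z : ℂ := 2 * u * √η / (1 - v) with hz
  set w : ℂ := 1 - η * c with hw
  -- `(z, w)` belongs to the domain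
  have hzn : ‖z‖ ^ 2 * ‖1 - v‖ ^ 2 = 4 * η * ‖u‖ ^ 2 := by
    rw [hz, norm_div, norm_mul, norm_mul, Complex.norm_real, Real.norm_of_nonneg (Real.sqrt_nonneg _)]
    have : (‖(2:ℂ)‖) = 2 := by norm_num
    rw [this, div_pow, div_mul_cancel₀ _ (by positivity), mul_pow, mul_pow, Real.sq_sqrt hη.le]
    ring
  have hwn : ‖w‖ ^ 2 = 1 - 2 * η * c.re + η ^ 2 * ‖c‖ ^ 2 := by
    rw [hw, ← Complex.normSq_eq_norm_sq, ← Complex.normSq_eq_norm_sq, Complex.normSq_apply,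
      Complex.normSq_apply]
    simp
    ring
  have hcre' : |c.re| ≤ M r := (Complex.abs_re_le_norm c).trans hcn
  have hcc : ‖c‖ ^ 2 ≤ M r ^ 2 := pow_le_pow_left₀ (norm_nonneg _) hcn 2
  have hin : ‖z‖ ^ 2 + ‖w‖ ^ 4 < 1 := by
    have h4 : ‖w‖ ^ 4 ≤ 1 - 4 * η * c.re + η ^ 2 * K r := by
      have e : ‖w‖ ^ 4 = (‖w‖ ^ 2) ^ 2 := by ring
      rw [e, hwn]
      have e2 : (1 - 2 * η * c.re + η ^ 2 * ‖c‖ ^ 2) ^ 2 =
          1 - 4 * η * c.re + η ^ 2 * (2 * ‖c‖ ^ 2 + (-2 * c.re + η * ‖c‖ ^ 2) ^ 2) := by ring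
      rw [e2]
      have h5 : (-2 * c.re + η * ‖c‖ ^ 2) ^ 2 ≤ (2 * M r + M r ^ 2) ^ 2 := by
        apply sq_le_sq'
        · have h6 : 0 ≤ η * ‖c‖ ^ 2 := by positivity
          nlinarith [(abs_le.1 hcre').2, sq_nonneg (M r)]
        · have h6 : η * ‖c‖ ^ 2 ≤ M r ^ 2 := by nlinarith [sq_nonneg ‖c‖]
          nlinarith [(abs_le.1 hcre').1]
      have h7 : 2 * ‖c‖ ^ 2 + (-2 * c.re + η * ‖c‖ ^ 2) ^ 2 ≤ K r := by
        unfold K; linarith
      have := mul_le_mul_of_nonneg_left h7 (sq_nonneg η)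
      linarith
    have h5 : 0 < ‖1 - v‖ ^ 2 * (1 - ‖z‖ ^ 2 - ‖w‖ ^ 4) := by
      have h6 : ‖1 - v‖ ^ 2 * (4 * η * c.re - η ^ 2 * K r - ‖z‖ ^ 2) ≤
          ‖1 - v‖ ^ 2 * (1 - ‖z‖ ^ 2 - ‖w‖ ^ 4) :=
        mul_le_mul_of_nonneg_left (by linarith) (sq_nonneg _)
      refine lt_of_lt_of_le ?_ h6
      have e3 : ‖1 - v‖ ^ 2 * (4 * η * c.re - η ^ 2 * K r - ‖z‖ ^ 2) =
          4 * η * (1 - ‖v‖ ^ 2) - ‖1 - v‖ ^ 2 * (η ^ 2 * K r) - 4 * η * ‖u‖ ^ 2 := by
        rw [← hcre, ← hzn]; ring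
      rw [e3]
      have hK0 : 0 ≤ K r := by unfold K; positivity
      have h7 : ‖1 - v‖ ^ 2 * (η ^ 2 * K r) ≤ 4 * (η ^ 2 * K r) := by
        apply mul_le_mul_of_nonneg_right _ (by positivity)
        nlinarith
      have h8 : 0 < η * (1 - r ^ 2 - K r * η) := mul_pos hη (by linarith)
      nlinarith
    have := (mul_pos_iff_of_pos_left (by positivity)).1 h5
    linarith
  -- the preimage
  have hz1 : ‖z‖ < 1 := by
    have : ‖z‖ ^ 2 < 1 := by nlinarith [pow_nonneg (norm_nonneg w) 4]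
    exact lt_of_pow_lt_pow_left₀ 2 zero_le_one (by simpa using this)
  have hpz : 0 < (1 + a * z).re := by
    have h1 : |z.re| ≤ ‖z‖ := Complex.abs_re_le_norm z
    have h2 := (abs_le.1 h1).1
    simp only [Complex.add_re, Complex.one_re, Complex.mul_re, Complex.ofReal_re, Complex.ofReal_im,
      zero_mul, sub_zero]
    nlinarith
  have hp0 : 1 + a * z ≠ 0 := ne_zero_of_re hpz
  set x0 : ℂ := (z + a) / (1 + a * z) with hx0
  have ha2 : (1 - (a:ℂ) ^ 2) ≠ 0 := by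
    have : (1 - a ^ 2 : ℝ) ≠ 0 := by nlinarith
    exact_mod_cast this
  have h1x : 1 - a * x0 = (1 - (a:ℂ) ^ 2) / (1 + a * z) := by
    rw [hx0]; field_simp; ring
  have h1x0 : 1 - a * x0 ≠ 0 := by rw [h1x]; exact div_ne_zero ha2 hp0
  set s : ℂ := (1 - a * x0) ^ (1 / 2 : ℂ) with hs
  have hs2 : s ^ 2 = 1 - a * x0 := by
    rw [hs, show (1 / 2 : ℂ) = ((2:ℕ):ℂ)⁻¹ by norm_num]
    exact Complex.cpow_nat_inv_pow _ two_ne_zero
  have hs0 : s ≠ 0 := fun h => h1x0 (by rw [← hs2, h]; simp)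
  have hk0' : (k:ℂ) ≠ 0 := by exact_mod_cast hk0.ne'
  set X : E := !₂[x0, w * s / k] with hX
  have hX0 : X 0 = x0 := rfl
  have hX1 : X 1 = w * s / k := rfl
  have hSX : S a X = s := by unfold S; rw [hX0]
  have hz1X : z1 a X = z := by
    unfold z1
    rw [hX0, hx0]
    exact mob hp0 ha2
  have hw1X : w1 a k X = w := by
    unfold w1
    rw [hX1, hSX]
    field_simp
  have hXD : X ∈ D := by
    have h := key hk hk0.le (x := X) (by rw [hX0]; exact h1x0)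
    rw [hz1X, hw1X] at h
    have h9 : 0 < ‖1 - a * X 0‖ ^ 2 * (1 - ‖z‖ ^ 2 - ‖w‖ ^ 4) := by
      have : 0 < ‖1 - a * X 0‖ := norm_pos_iff.2 (by rw [hX0]; exact h1x0)
      exact mul_pos (by positivity) (by linarith)
    rw [h] at h9
    have := (mul_pos_iff_of_pos_left (show 0 < 1 - a ^ 2 by nlinarith)).1 h9
    rw [mem_D]
    linarith
  refine ⟨X, hXD, ?_⟩
  have hc1 : 1 - w + η = 2 * η / (1 - v) := by
    rw [hw, hc]; field_simp; ring
  have hη' : (η:ℂ) ≠ 0 := by exact_mod_cast hη.ne'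
  have hsη : (√η : ℂ) * √η = η := by
    exact_mod_cast Real.mul_self_sqrt hη.le
  ext i
  fin_cases i
  · show (√η : ℂ) * z1 a X / (1 - w1 a k X + η) = u
    rw [hz1X, hw1X, hc1, hz]
    field_simp
    rw [pow_two, hsη]
    field_simp
  · show (1 - w1 a k X - η) / (1 - w1 a k X + η) = v
    rw [hw1X, hc1, hw, hc]
    field_simp
    ring

lemma squeezing_le_one (z : E) : ∀ r ∈ {r : ℝ | 0 < r ∧ Fits D z r}, r ≤ 1 := by
  rintro r ⟨hr, F, -, -, h1, -, h2⟩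
  by_contra hcon
  push Not at hcon
  have h3 : (EuclideanSpace.single 0 1 : E) ∈ ball (0:E) r := by
    rw [mem_ball_zero_iff, PiLp.norm_single, norm_one]
    exact hcon
  have h4 := h1 (h2 h3)
  rw [mem_ball_zero_iff, PiLp.norm_single, norm_one] at h4
  exact lt_irrefl _ h4

lemma le_squeezing (ha0 : 0 ≤ a) (ha : a < 1) (hk : k ^ 4 = 1 - a ^ 2) (hk0 : 0 < k) (hη : 0 < η)
    (hη1 : η ≤ 1) {r : ℝ} (hr0 : 0 < r) (hr : r < 1) (hK : K r * η < 1 - r ^ 2) :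
    r ≤ squeezing D !₂[(a:ℂ), (((1 - η) * k : ℝ) : ℂ)] := by
  refine le_csSup ⟨1, squeezing_le_one _⟩ ⟨hr0, F a k η, F_diff ha0 ha hk hk0 hη,
    F_inj ha0 ha hk hk0 hη, ?_, ?_, F_surj ha0 ha hk hk0 hη hη1 hr0 hr hK⟩
  · rintro _ ⟨x, hx, rfl⟩
    exact F_ball ha0 ha hk hk0.le hη hx
  · set x : E := !₂[(a:ℂ), (((1 - η) * k : ℝ) : ℂ)] with hx
    have e0 : x 0 = a := rfl
    have e1 : x 1 = (((1 - η) * k : ℝ) : ℂ) := rfl
    have hz : z1 a x = 0 := by unfold z1; rw [e0]; simp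
    have hS : S a x = ((k ^ 2 : ℝ) : ℂ) := by
      unfold S
      rw [e0]
      have h1 : (1 - (a:ℂ) * a) = ((k ^ 4 : ℝ) : ℂ) := by
        rw [hk]; push_cast; ring
      rw [h1, show (1 / 2 : ℂ) = ((1 / 2 : ℝ) : ℂ) by push_cast; ring,
        ← Complex.ofReal_cpow (by positivity)]
      congr 1
      rw [show k ^ 4 = (k ^ 2) ^ (2:ℝ) by rw [Real.rpow_two]; ring, ← Real.rpow_mul (by positivity)]
      norm_num
    have hw : w1 a k x = ((1 - η : ℝ) : ℂ) := by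
      unfold w1
      rw [e1, hS]
      have hk0' : (k:ℂ) ≠ 0 := by exact_mod_cast hk0.ne'
      push_cast
      field_simp
    ext i
    fin_cases i
    · show (√η : ℂ) * z1 a x / (1 - w1 a k x + η) = 0
      rw [hz]; simp
    · show (1 - w1 a k x - η) / (1 - w1 a k x + η) = 0
      rw [hw]; push_cast; simp


/-! ### the sequence -/

lemma convex_D : Convex ℝ D := by
  have h0 : ConvexOn ℝ univ (fun x : E => ‖x 0‖ ^ 2) :=
    ((convexOn_norm (convex_univ (𝕜 := ℝ) (E := ℂ))).comp_linearMap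
      ((P 0 : E →L[ℝ] ℂ) : E →ₗ[ℝ] ℂ)).pow (fun x _ => norm_nonneg _) 2
  have h1 : ConvexOn ℝ univ (fun x : E => ‖x 1‖ ^ 4) :=
    ((convexOn_norm (convex_univ (𝕜 := ℝ) (E := ℂ))).comp_linearMap
      ((P 1 : E →L[ℝ] ℂ) : E →ₗ[ℝ] ℂ)).pow (fun x _ => norm_nonneg _) 4
  have h2 := (h0.add h1).convex_lt 1
  simpa [D] using h2

lemma bounded_D : Bornology.IsBounded D := by
  refine (Metric.isBounded_ball (x := (0:E)) (r := 2)).subset fun x hx => ?_
  rw [mem_ball_zero_iff]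
  have h := mem_D.1 hx
  have h0 : ‖x 0‖ ^ 2 ≤ 1 := by nlinarith [pow_nonneg (norm_nonneg (x 1)) 4]
  have h1 : ‖x 1‖ ^ 2 ≤ 1 := by
    have : (‖x 1‖ ^ 2) ^ 2 ≤ 1 := by nlinarith [sq_nonneg ‖x 0‖]
    nlinarith [sq_nonneg ‖x 1‖]
  have h2 : ‖x‖ ^ 2 < 2 ^ 2 := by rw [normsq]; linarith
  exact lt_of_pow_lt_pow_left₀ 2 (by norm_num) h2

lemma connected_D : IsConnected D := by
  refine ⟨⟨0, by rw [mem_D]; simp⟩, convex_D.isPreconnected⟩

noncomputable def eta (ν : ℕ) : ℝ := 1 / ((ν : ℝ) + 1)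
noncomputable def aa (ν : ℕ) : ℝ := 1 - eta ν
noncomputable def kk (ν : ℕ) : ℝ := √(√(1 - aa ν ^ 2))
noncomputable def zz (ν : ℕ) : E := !₂[(aa ν : ℂ), (((1 - eta ν) * kk ν : ℝ) : ℂ)]

lemma eta_pos (ν : ℕ) : 0 < eta ν := by unfold eta; positivity
lemma eta_le (ν : ℕ) : eta ν ≤ 1 := by
  unfold eta
  rw [div_le_one (by positivity)]
  have : (0:ℝ) ≤ ν := Nat.cast_nonneg ν
  linarith
lemma aa_nonneg (ν : ℕ) : 0 ≤ aa ν := by have := eta_le ν; unfold aa; linarith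
lemma aa_lt (ν : ℕ) : aa ν < 1 := by have := eta_pos ν; unfold aa; linarith
lemma aa_pos' (ν : ℕ) : 0 < 1 - aa ν ^ 2 := by
  have h1 := aa_nonneg ν
  have h2 := aa_lt ν
  nlinarith
lemma kk_pos (ν : ℕ) : 0 < kk ν := Real.sqrt_pos.2 (Real.sqrt_pos.2 (aa_pos' ν))
lemma kk_pow (ν : ℕ) : kk ν ^ 4 = 1 - aa ν ^ 2 := by
  unfold kk
  rw [show (4:ℕ) = 2 * 2 by norm_num, pow_mul, Real.sq_sqrt (Real.sqrt_nonneg _),
    Real.sq_sqrt (aa_pos' ν).le]

lemma tendsto_eta : Tendsto eta atTop (𝓝 0) := tendsto_one_div_add_atTop_nhds_zero_nat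

lemma tendsto_aa : Tendsto aa atTop (𝓝 1) := by
  have h := tendsto_eta.const_sub 1
  rw [sub_zero] at h
  exact h

lemma tendsto_kk : Tendsto kk atTop (𝓝 0) := by
  have h1 : Tendsto (fun ν => 1 - aa ν ^ 2) atTop (𝓝 0) := by
    have := (tendsto_aa.pow 2).const_sub 1
    simpa using this
  have h2 := (Real.continuous_sqrt.tendsto _).comp h1
  have h3 := (Real.continuous_sqrt.tendsto _).comp h2
  rw [Real.sqrt_zero, Real.sqrt_zero] at h3
  exact h3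

lemma zz_mem (ν : ℕ) : zz ν ∈ D := by
  have h1 := eta_pos ν
  have h2 := eta_le ν
  have e0 : zz ν 0 = (aa ν : ℂ) := rfl
  have e1 : zz ν 1 = (((1 - eta ν) * kk ν : ℝ) : ℂ) := rfl
  rw [mem_D, e0, e1, Complex.norm_real, Complex.norm_real, Real.norm_of_nonneg (aa_nonneg ν),
    Real.norm_of_nonneg (mul_nonneg (by linarith) (kk_pos ν).le), mul_pow, kk_pow]
  have h3 : (1 - eta ν) ^ 4 < 1 := pow_lt_one₀ (by linarith) (by linarith) (by norm_num)
  have h4 := aa_pos' ν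
  nlinarith

lemma tendsto_zz : Tendsto zz atTop (𝓝 p₀) := by
  rw [tendsto_iff_norm_sub_tendsto_zero]
  have h1 : Tendsto (fun ν => |aa ν - 1| + |(1 - eta ν) * kk ν|) atTop (𝓝 0) := by
    have h2 : Tendsto (fun ν => |aa ν - 1|) atTop (𝓝 |1 - 1|) :=
      (tendsto_aa.sub_const 1).abs
    have h3 : Tendsto (fun ν => |(1 - eta ν) * kk ν|) atTop (𝓝 |(1 - 0) * 0|) :=
      ((tendsto_eta.const_sub 1).mul tendsto_kk).abs
    have := h2.add h3
    simpa using this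
  refine squeeze_zero (fun _ => norm_nonneg _) (fun ν => ?_) h1
  have e0 : (zz ν - p₀) 0 = ((aa ν - 1 : ℝ) : ℂ) := by
    show zz ν 0 - p₀ 0 = _
    rw [show zz ν 0 = (aa ν : ℂ) from rfl, show p₀ 0 = 1 from rfl]; push_cast; rfl
  have e1 : (zz ν - p₀) 1 = (((1 - eta ν) * kk ν : ℝ) : ℂ) := by
    show zz ν 1 - p₀ 1 = _
    rw [show zz ν 1 = (((1 - eta ν) * kk ν : ℝ) : ℂ) from rfl, show p₀ 1 = 0 from rfl, sub_zero]
  refine le_of_sq_le_sq ?_ (by positivity)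
  rw [normsq, e0, e1, Complex.norm_real, Complex.norm_real, Real.norm_eq_abs, Real.norm_eq_abs]
  nlinarith [abs_nonneg (aa ν - 1), abs_nonneg ((1 - eta ν) * kk ν)]

lemma tendsto_squeezing : Tendsto (fun ν => squeezing D (zz ν)) atTop (𝓝 1) := by
  rw [tendsto_order]
  constructor
  · intro b hb
    obtain ⟨r, hr0, hbr, hr1⟩ : ∃ r : ℝ, 0 < r ∧ b < r ∧ r < 1 := by
      refine ⟨(max b 0 + 1) / 2, ?_, ?_, ?_⟩
      · have := le_max_right b 0; linarith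
      · have := le_max_left b 0
        have h2 : max b 0 < 1 := max_lt hb one_pos
        rcases max_cases b 0 with h | h <;> linarith
      · have h2 : max b 0 < 1 := max_lt hb one_pos
        linarith
    have h1 : Tendsto (fun ν => K r * eta ν) atTop (𝓝 0) := by
      have := tendsto_eta.const_mul (K r)
      simpa using this
    have h2 : 0 < 1 - r ^ 2 := by nlinarith
    filter_upwards [h1.eventually_lt_const h2] with ν hν
    exact hbr.trans_le (le_squeezing (aa_nonneg ν) (aa_lt ν) (kk_pow ν) (kk_pos ν) (eta_pos ν)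
      (eta_le ν) hr0 hr1 hν)
  · intro b hb
    exact Eventually.of_forall fun ν => (Real.sSup_le (squeezing_le_one _) zero_le_one).trans_lt hb

/-- **The answer to Q1 is yes.** There is a bounded convex domain `D` in `ℂ²` (so a bounded
pseudoconvex domain) with `C^∞`, Levi-pseudoconvex boundary of finite type at all boundary points,
and a boundary point `p` which is not strongly pseudoconvex and is the limit of points `z ν` of `D`
with `s_D(z ν) → 1`. So `(D, p)` is admissible in the sense of (A), (B) and (C) of the problem. -/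
theorem result : ∃ (D : Set (EuclideanSpace ℂ (Fin 2))) (p : EuclideanSpace ℂ (Fin 2)),
    IsConvexDomain D ∧ p ∈ frontier D ∧
    (∀ q ∈ frontier D, PseudoconvexNear D q ∧ FiniteTypeAt D q) ∧
    SqueezingTendsToOne D p ∧ ¬ StronglyPseudoconvexAt D p :=
  ⟨D, p₀, ⟨isOpen_D, connected_D, bounded_D, convex_D⟩, frontier_of_eq p₀_eq,
    fun _ hq => ⟨pseudoconvex _, finite_type (frontier_eq hq)⟩,
    ⟨zz, zz_mem, tendsto_zz, tendsto_squeezing⟩, not_strong⟩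

end Pool.Agent.Results.MP_63facb_an.ThullenPoint
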